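import Pool.Agent.Helper227.RD.Jump

/-!
A noncomputable set computable in the oracle `B` which computes only computable members of a given
list of sets uniformly computable in `B`.
-/

set_option autoImplicit false

namespace Pool.Agent.K9h72.DT

open Encodable
open Nat.Partrec (Code)
open Pool.Agent.Helper227

/-- Selection of an instance of a `Σ₁` relation. -/
theorem exists_selector {α β : Type} [Primcodable α] [Primcodable β] {R : α × β → Prop}
    (hR : S1 R) : ∃ f : α →. β, Partrec f ∧ (∀ a b, b ∈ f a → R (a, b)) ∧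
      ∀ a, (f a).Dom ↔ ∃ b, R (a, b) := by
  classical
  obtain ⟨q, hq, hm, he⟩ := hR
  let g : α → ℕ → Option β := fun a n =>
    (decode (α := β × ℕ) n).bind fun p => if q (a, p.1) p.2 then some p.1 else none
  have hg : Primrec₂ g := by
    refine Primrec.option_bind (Primrec.decode.comp Primrec.snd) ?_
    refine Primrec.ite ?_ (Primrec.option_some.comp (Primrec.fst.comp Primrec.snd))
      (Primrec.const none)
    exact hq.comp ((Primrec.fst.comp Primrec.fst).pair (Primrec.fst.comp Primrec.snd))
      (Primrec.snd.comp Primrec.snd)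
  have hgs : ∀ a n b, b ∈ g a n → R (a, b) := by
    intro a n b hb
    simp only [g, Option.mem_def, Option.bind_eq_some_iff] at hb
    obtain ⟨p, h1, h2⟩ := hb
    split_ifs at h2 with h3
    · obtain rfl := Option.some.inj h2
      exact (he (a, p.1)).2 ⟨_, h3⟩
  refine ⟨fun a => Nat.rfindOpt (g a), Partrec.rfindOpt hg.to_comp, ?_, ?_⟩
  · intro a b hb
    obtain ⟨n, hn⟩ := Nat.rfindOpt_spec hb
    exact hgs a n b hn
  · intro a
    rw [Nat.rfindOpt_dom]
    constructor
    · rintro ⟨n, b, hb⟩
      exact ⟨b, hgs a n b hb⟩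
    · rintro ⟨b, hb⟩
      obtain ⟨n, hn⟩ := (he (a, b)).1 hb
      refine ⟨encode (b, n), b, ?_⟩
      simp only [g, encodek, Option.bind_some, Option.mem_def]
      rw [if_pos hn]

theorem s1_mem {α β : Type} [Primcodable α] [Primcodable β] {f : α →. β} (hf : Partrec f) :
    S1 fun x : α × β => x.2 ∈ f x.1 := by
  have h1 : Partrec fun x : α × β => (f x.1).bind fun y =>
      (if encode y = encode x.2 then Part.some () else Part.none) := by
    refine Partrec.bind (hf.comp Computable.fst) ?_
    have h2 : PrimrecPred fun z : (α × β) × β => encode z.2 = encode z.1.2 :=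
      Primrec.eq.comp (Primrec.encode.comp Primrec.snd)
        (Primrec.encode.comp (Primrec.snd.comp Primrec.fst))
    have h3 : Partrec fun z : (α × β) × β =>
        (cond (decide (encode z.2 = encode z.1.2)) (Part.some ())
          Part.none : Part Unit) :=
      Partrec.cond h2.decide.to_comp (Computable.const ()).partrec Partrec.none
    refine h3.of_eq fun z => ?_
    by_cases h : encode z.2 = encode z.1.2 <;> simp [h]
  refine (S1.of_re h1.dom_re).of_eq fun x => ?_
  simp only [Part.bind_dom]
  constructor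
  · rintro ⟨h, h2⟩
    by_cases h3 : encode ((f x.1).get h) = encode x.2
    · rw [← encode_injective h3]; exact Part.get_mem h
    · rw [if_neg h3] at h2
      exact h2.elim
  · intro h
    refine ⟨Part.dom_iff_mem.2 ⟨_, h⟩, ?_⟩
    have h3 : (f x.1).get (Part.dom_iff_mem.2 ⟨_, h⟩) = x.2 :=
      Part.get_eq_of_mem h _
    rw [h3, if_pos rfl]
    trivial

theorem s1_prefix {α : Type} [Primcodable α] {f g : α → List Bool} (hf : Primrec f)
    (hg : Primrec g) : S1 fun a => f a <+: g a := by
  have h : S1 fun a => ∃ ρ : List Bool, f a ++ ρ = g a := by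
    refine S1.ex (p := fun a (ρ : List Bool) => f a ++ ρ = g a) (S1.of_prim ?_)
    exact Primrec.eq.comp (Primrec.list_append.comp (hf.comp Primrec.fst) Primrec.snd)
      (hg.comp Primrec.fst)
  exact h.of_eq fun a => Iff.rfl

/-- The `p`-th program accepts the data `(σ, x, b)`. -/
def Acc (p : ℕ) (σ : List Bool) (x : ℕ) (b : Bool) : Prop :=
  ((Denumerable.ofNat Code p).eval (encode (σ, x, b))).Dom

theorem s1_acc {α : Type} [Primcodable α] {p : α → ℕ} {σ : α → List Bool} {x : α → ℕ}
    {b : α → Bool} (hp : Primrec p) (hσ : Primrec σ) (hx : Primrec x) (hb : Primrec b) :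
    S1 fun a => Acc (p a) (σ a) (x a) (b a) :=
  s1_eval.comp (f := fun a => (Denumerable.ofNat Code (p a), encode (σ a, x a, b a)))
    (((Primrec.ofNat Code).comp hp).pair (Primrec.encode.comp (hσ.pair (hx.pair hb))))

/-- `z.2` is a splitting above the string `z.1.2` for the program `z.1.1`. -/
def Splits (z : (ℕ × List Bool) × (List Bool × List Bool × ℕ)) : Prop :=
  (z.1.2 <+: z.2.1 ∧ z.1.2 <+: z.2.2.1) ∧
    (Acc z.1.1 z.2.1 z.2.2.2 false ∧ Acc z.1.1 z.2.2.1 z.2.2.2 true)

theorem s1_splits : S1 Splits := by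
  refine ((s1_prefix ?_ ?_).and (s1_prefix ?_ ?_)).and ((s1_acc ?_ ?_ ?_ ?_).and
    (s1_acc ?_ ?_ ?_ ?_))
  · exact Primrec.snd.comp Primrec.fst
  · exact Primrec.fst.comp Primrec.snd
  · exact Primrec.snd.comp Primrec.fst
  · exact Primrec.fst.comp (Primrec.snd.comp Primrec.snd)
  · exact Primrec.fst.comp Primrec.fst
  · exact Primrec.fst.comp Primrec.snd
  · exact Primrec.snd.comp (Primrec.snd.comp Primrec.snd)
  · exact Primrec.const _
  · exact Primrec.fst.comp Primrec.fst
  · exact Primrec.fst.comp (Primrec.snd.comp Primrec.snd)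
  · exact Primrec.snd.comp (Primrec.snd.comp Primrec.snd)
  · exact Primrec.const _

/-- the oracle zero -/
def zro : ℕ → Bool := fun _ => false

section
open Classical

/-- The first half of a step. -/
noncomputable def mid (f : (ℕ × List Bool) →. (List Bool × List Bool × ℕ)) (T : ℕ → ℕ → Bool)
    (s : ℕ) (σ : List Bool) : List Bool :=
  if h : (f (s.unpair.1, σ)).Dom then
    bif T s.unpair.2 ((f (s.unpair.1, σ)).get h).2.2 then ((f (s.unpair.1, σ)).get h).1
      else ((f (s.unpair.1, σ)).get h).2.1
  else σ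

/-- The second half of a step. -/
noncomputable def pt (s : ℕ) (τ : List Bool) : List Bool :=
  τ ++ [!(decide (1 ∈ (Denumerable.ofNat Code s).eval τ.length))]

/-- The stages. -/
noncomputable def st (f : (ℕ × List Bool) →. (List Bool × List Bool × ℕ)) (T : ℕ → ℕ → Bool) :
    ℕ → List Bool
  | 0 => []
  | s + 1 => pt s (mid f T s (st f T s))

theorem si_of_s1 {B : ℕ → Bool} (hB : TLe (jump zro) B) {α : Type} [Primcodable α]
    {p : α → Prop} (hp : S1 p) : SI B p ∧ SI B fun a => ¬ p a := by
  have h := (SI.of_s1 (B := zro) hp).decide_jump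
  exact ⟨h.1.trans hB, h.2.trans hB⟩

theorem si_mid {B : ℕ → Bool} (hB : TLe (jump zro) B)
    {f : (ℕ × List Bool) →. (List Bool × List Bool × ℕ)} (hf : Partrec f) {T : ℕ → ℕ → Bool}
    (hT : TLe (fun z => T z.unpair.1 z.unpair.2) B) :
    SI B fun z : (ℕ × List Bool) × List Bool => mid f T z.1.1 z.1.2 = z.2 := by
  have e1 : Primrec fun z : (ℕ × List Bool) × List Bool => (z.1.1.unpair.1, z.1.2) :=
    (Primrec.fst.comp (Primrec.unpair.comp (Primrec.fst.comp Primrec.fst))).pair
      (Primrec.snd.comp Primrec.fst)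
  have hT' := tLe_iff_SI.1 hT
  have h1 : SI B fun z : (ℕ × List Bool) × List Bool =>
      ∃ w : (List Bool × List Bool × ℕ) × Bool, w.1 ∈ f (z.1.1.unpair.1, z.1.2) ∧
        (T z.1.1.unpair.2 w.1.2.2 = w.2 ∧ (bif w.2 then w.1.1 else w.1.2.1) = z.2) := by
    refine SI.ex (p := fun (z : (ℕ × List Bool) × List Bool)
      (w : (List Bool × List Bool × ℕ) × Bool) => w.1 ∈ f (z.1.1.unpair.1, z.1.2) ∧
        (T z.1.1.unpair.2 w.1.2.2 = w.2 ∧ (bif w.2 then w.1.1 else w.1.2.1) = z.2))
      (SI.and ?_ (SI.and ?_ ?_))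
    · refine SI.of_s1 ((s1_mem hf).comp (f := fun x : ((ℕ × List Bool) × List Bool) ×
        ((List Bool × List Bool × ℕ) × Bool) => ((x.1.1.1.unpair.1, x.1.1.2), x.2.1)) ?_)
      exact (e1.comp Primrec.fst).pair (Primrec.fst.comp Primrec.snd)
    · refine (hT'.comp (f := fun x : ((ℕ × List Bool) × List Bool) ×
        ((List Bool × List Bool × ℕ) × Bool) =>
          (Nat.pair x.1.1.1.unpair.2 x.2.1.2.2, x.2.2)) ?_).of_eq ?_
      · refine Primrec.pair (Primrec₂.natPair.comp ?_ ?_) (Primrec.snd.comp Primrec.snd)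
        · exact Primrec.snd.comp (Primrec.unpair.comp
            (Primrec.fst.comp (Primrec.fst.comp Primrec.fst)))
        · exact Primrec.snd.comp (Primrec.snd.comp (Primrec.fst.comp Primrec.snd))
      · intro x
        simp only [Nat.unpair_pair]
    · refine SI.of_prim (Primrec.eq.comp (Primrec.cond ?_ ?_ ?_) ?_)
      · exact Primrec.snd.comp Primrec.snd
      · exact Primrec.fst.comp (Primrec.fst.comp Primrec.snd)
      · exact Primrec.fst.comp (Primrec.snd.comp (Primrec.fst.comp Primrec.snd))
      · exact Primrec.snd.comp Primrec.fst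
  have h2 : S1 fun a : ℕ × List Bool => ∃ b, b ∈ f a :=
    S1.ex (p := fun (a : ℕ × List Bool) (b : List Bool × List Bool × ℕ) => b ∈ f a) (s1_mem hf)
  have h3 : SI B fun z : (ℕ × List Bool) × List Bool =>
      (¬ ∃ b, b ∈ f (z.1.1.unpair.1, z.1.2)) ∧ z.1.2 = z.2 := by
    refine SI.and ((si_of_s1 hB h2).2.comp (f := fun z : (ℕ × List Bool) × List Bool =>
      (z.1.1.unpair.1, z.1.2)) e1) (SI.of_prim ?_)
    exact Primrec.eq.comp (Primrec.snd.comp Primrec.fst) Primrec.snd
  refine (h1.or h3).of_eq fun z => ?_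
  rcases z with ⟨⟨s, σ⟩, τ⟩
  simp only [mid]
  by_cases hd : (f (s.unpair.1, σ)).Dom
  · rw [dif_pos hd]
    constructor
    · rintro (⟨⟨w, b⟩, h4, h5, h6⟩ | ⟨h4, -⟩)
      · have h7 : (f (s.unpair.1, σ)).get hd = w := Part.get_eq_of_mem h4 _
        rw [h7]
        simp only at h5 h6
        rw [h5]
        exact h6
      · exact absurd (Part.dom_iff_mem.1 hd) h4
    · intro h
      exact Or.inl ⟨((f (s.unpair.1, σ)).get hd, _), Part.get_mem hd, rfl, h⟩
  · rw [dif_neg hd]
    have hd' : ¬ ∃ b, b ∈ f (s.unpair.1, σ) := fun h => hd (Part.dom_iff_mem.2 h)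
    constructor
    · rintro (⟨w, h4, -⟩ | ⟨-, h5⟩)
      · exact absurd ⟨_, h4⟩ hd'
      · exact h5
    · intro h
      exact Or.inr ⟨hd', h⟩

theorem si_pt {B : ℕ → Bool} (hB : TLe (jump zro) B) :
    SI B fun z : (ℕ × List Bool) × List Bool => pt z.1.1 z.1.2 = z.2 := by
  have h0 : Partrec fun x : ℕ × ℕ => (Denumerable.ofNat Code x.1).eval x.2 :=
    Nat.Partrec.Code.eval_part.comp ((Computable.ofNat Code).comp Computable.fst) Computable.snd
  have h1 : S1 fun x : ℕ × ℕ => 1 ∈ (Denumerable.ofNat Code x.1).eval x.2 :=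
    (s1_mem h0).comp (f := fun x : ℕ × ℕ => (x, 1)) (Primrec.id.pair (Primrec.const 1))
  have e1 : Primrec fun z : (ℕ × List Bool) × List Bool => (z.1.1, z.1.2.length) :=
    (Primrec.fst.comp Primrec.fst).pair (Primrec.list_length.comp (Primrec.snd.comp Primrec.fst))
  have h2 := si_of_s1 hB h1
  have h3 : ∀ b : Bool, SI B fun z : (ℕ × List Bool) × List Bool => z.1.2 ++ [b] = z.2 := fun b =>
    SI.of_prim (Primrec.eq.comp (Primrec.list_append.comp (Primrec.snd.comp Primrec.fst)
      (Primrec.const [b])) Primrec.snd)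
  refine (SI.or (SI.and (h2.1.comp e1) (h3 false)) (SI.and (h2.2.comp e1) (h3 true))).of_eq
    fun z => ?_
  rcases z with ⟨⟨s, σ⟩, τ⟩
  simp only [pt]
  by_cases h : 1 ∈ (Denumerable.ofNat Code s).eval σ.length
  · simp [h]
  · simp [h]

/-- Iteration of a function whose graph is `Σ₁` in `B`. -/
theorem si_iter {B : ℕ → Bool} {nx : ℕ → List Bool → List Bool}
    (h : SI B fun z : (ℕ × List Bool) × List Bool => nx z.1.1 z.1.2 = z.2)
    {u : ℕ → List Bool} (h0 : u 0 = []) (h1 : ∀ s, u (s + 1) = nx s (u s)) :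
    SI B fun z : ℕ × List Bool => u z.1 = z.2 := by
  have h2 : SI B fun z : ℕ × List Bool => ∃ L : List (List Bool), ((L[0]?).getD [] = [] ∧
      (L[z.1]?).getD [] = z.2) ∧
      ∀ i < z.1, nx i ((L[i]?).getD []) = (L[i + 1]?).getD [] := by
    refine SI.ex (p := fun (z : ℕ × List Bool) (L : List (List Bool)) => ((L[0]?).getD [] = [] ∧
      (L[z.1]?).getD [] = z.2) ∧
      ∀ i < z.1, nx i ((L[i]?).getD []) = (L[i + 1]?).getD []) (SI.and (SI.and ?_ ?_) ?_)
    · refine SI.of_prim (Primrec.eq.comp (Primrec.option_getD.comp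
        (Primrec.list_getElem?.comp Primrec.snd (Primrec.const 0)) (Primrec.const []))
        (Primrec.const []))
    · refine SI.of_prim (Primrec.eq.comp (Primrec.option_getD.comp
        (Primrec.list_getElem?.comp Primrec.snd (Primrec.fst.comp Primrec.fst))
        (Primrec.const [])) (Primrec.snd.comp Primrec.fst))
    · refine SI.all_lt (α := (ℕ × List Bool) × List (List Bool)) (p := fun x i =>
        nx i ((x.2[i]?).getD []) = (x.2[i + 1]?).getD []) (f := fun x => x.1.1) ?_
        (Primrec.fst.comp Primrec.fst)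
      refine h.comp (f := fun x : ((ℕ × List Bool) × List (List Bool)) × ℕ =>
        ((x.2, (x.1.2[x.2]?).getD []), (x.1.2[x.2 + 1]?).getD [])) ?_
      refine (Primrec.snd.pair (Primrec.option_getD.comp
        (Primrec.list_getElem?.comp (Primrec.snd.comp Primrec.fst) Primrec.snd)
        (Primrec.const []))).pair (Primrec.option_getD.comp
        (Primrec.list_getElem?.comp (Primrec.snd.comp Primrec.fst)
          (Primrec.succ.comp Primrec.snd)) (Primrec.const []))
  refine h2.of_eq fun z => ?_
  rcases z with ⟨n, τ⟩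
  simp only
  constructor
  · rintro ⟨L, ⟨h3, h4⟩, h5⟩
    have h6 : ∀ i ≤ n, (L[i]?).getD [] = u i := by
      intro i
      induction i with
      | zero => intro _; rw [h3, h0]
      | succ i ih =>
        intro hi
        rw [h1, ← ih (by omega), h5 i (by omega)]
    rw [← h4, h6 n le_rfl]
  · rintro rfl
    refine ⟨(List.range (n + 1)).map u, ⟨?_, ?_⟩, ?_⟩
    · simp [h0]
    · simp
    · intro i hi
      simp [hi, Nat.lt_succ_of_lt hi, h1]

theorem prefix_mid {f : (ℕ × List Bool) →. (List Bool × List Bool × ℕ)}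
    (hf1 : ∀ a b, b ∈ f a → Splits (a, b)) (T : ℕ → ℕ → Bool) (s : ℕ) (σ : List Bool) :
    σ <+: mid f T s σ := by
  unfold mid
  by_cases hd : (f (s.unpair.1, σ)).Dom
  · rw [dif_pos hd]
    have h := hf1 _ _ (Part.get_mem hd)
    cases T s.unpair.2 ((f (s.unpair.1, σ)).get hd).2.2
    · exact h.1.2
    · exact h.1.1
  · rw [dif_neg hd]

theorem prefix_pt (s : ℕ) (τ : List Bool) : τ <+: pt s τ := List.prefix_append _ _

/-- limit of a chain of strings -/
theorem exists_limit {σ : ℕ → List Bool} (h1 : ∀ i, σ i <+: σ (i + 1)) (h2 : ∀ i, i ≤ (σ i).length) :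
    ∀ i, pre (fun n => (σ (n + 1)).getD n false) (σ i).length = σ i := by
  have hmono : ∀ i j, i ≤ j → σ i <+: σ j := by
    intro i j hij
    induction j, hij using Nat.le_induction with
    | base => exact List.prefix_rfl
    | succ j _ ih => exact ih.trans (h1 j)
  intro i
  refine List.ext_getElem (by simp) fun j h3 h4 => ?_
  rw [getElem_pre]
  have h5 : j < (σ (j + 1)).length := h2 (j + 1)
  rw [List.getD_eq_getElem _ _ h5]
  rcases Nat.le_total i (j + 1) with h6 | h6
  · exact (List.IsPrefix.getElem (hmono i (j + 1) h6) h4).symm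
  · exact List.IsPrefix.getElem (hmono (j + 1) i h6) h5

theorem pre_of_prefix {X : ℕ → Bool} {u v : List Bool} (hv : pre X v.length = v) (h : u <+: v) :
    pre X u.length = u := (pre_eq_of_prefix (X := X) (n := v.length) (by rwa [hv])).symm

/-- If `B` computes the halting problem and, uniformly, the sets `T e`, there is a noncomputable
set `D` computable in `B` such that each `T e` which is computable in `D` is computable. -/
theorem diag {B : ℕ → Bool} (hB : TLe (jump zro) B) {T : ℕ → ℕ → Bool}
    (hT : TLe (fun z => T z.unpair.1 z.unpair.2) B) :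
    ∃ D : ℕ → Bool, TLe D B ∧ ¬ Computable D ∧ ∀ e, TLe (T e) D → Computable (T e) := by
  obtain ⟨f, hf, hf1, hf2⟩ := exists_selector s1_splits
  have hnx : ∀ s, st f T (s + 1) = pt s (mid f T s (st f T s)) := fun s => rfl
  have hp1 : ∀ s, st f T s <+: mid f T s (st f T s) := fun s => prefix_mid hf1 T s _
  have hp2 : ∀ s, mid f T s (st f T s) <+: st f T (s + 1) := fun s => prefix_pt _ _
  have hp : ∀ s, st f T s <+: st f T (s + 1) := fun s => (hp1 s).trans (hp2 s)
  have hl : ∀ s, s ≤ (st f T s).length := by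
    intro s
    induction s with
    | zero => exact Nat.zero_le _
    | succ s ih =>
      have h1 := (hp1 s).length_le
      rw [hnx, pt, List.length_append, List.length_singleton]
      omega
  set D : ℕ → Bool := fun n => (st f T (n + 1)).getD n false with hD
  have hlim : ∀ s, pre D (st f T s).length = st f T s := exists_limit hp hl
  have hgr : SI B fun z : ℕ × List Bool => st f T z.1 = z.2 := by
    refine si_iter (nx := fun s σ => pt s (mid f T s σ)) ?_ rfl hnx
    have h1 : SI B fun z : (ℕ × List Bool) × List Bool =>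
        ∃ τ : List Bool, mid f T z.1.1 z.1.2 = τ ∧ pt z.1.1 τ = z.2 := by
      refine SI.ex (p := fun (z : (ℕ × List Bool) × List Bool) (τ : List Bool) =>
        mid f T z.1.1 z.1.2 = τ ∧ pt z.1.1 τ = z.2) (SI.and ?_ ?_)
      · exact (si_mid hB hf hT).comp (f := fun x : ((ℕ × List Bool) × List Bool) × List Bool =>
          (x.1.1, x.2)) ((Primrec.fst.comp Primrec.fst).pair Primrec.snd)
      · exact (si_pt hB).comp (f := fun x : ((ℕ × List Bool) × List Bool) × List Bool =>
          ((x.1.1.1, x.2), x.1.2)) (((Primrec.fst.comp (Primrec.fst.comp Primrec.fst)).pair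
            Primrec.snd).pair (Primrec.snd.comp Primrec.fst))
    exact h1.of_eq fun z => by simp
  refine ⟨D, ?_, ?_, ?_⟩
  · rw [tLe_iff_SI]
    have h1 : SI B fun x : ℕ × Bool => ∃ τ : List Bool, st f T (x.1 + 1) = τ ∧
        (τ[x.1]?).getD false = x.2 := by
      refine SI.ex (p := fun (x : ℕ × Bool) (τ : List Bool) => st f T (x.1 + 1) = τ ∧
        (τ[x.1]?).getD false = x.2) (SI.and ?_ (SI.of_prim ?_))
      · exact hgr.comp (f := fun x : (ℕ × Bool) × List Bool => (x.1.1 + 1, x.2))
          ((Primrec.succ.comp (Primrec.fst.comp Primrec.fst)).pair Primrec.snd)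
      · exact Primrec.eq.comp (Primrec.option_getD.comp (Primrec.list_getElem?.comp Primrec.snd
          (Primrec.fst.comp Primrec.fst)) (Primrec.const false)) (Primrec.snd.comp Primrec.fst)
    refine h1.of_eq fun x => ?_
    simp [hD]
  · intro hc
    have h1 : Computable fun n => (D n).toNat := (Primrec.dom_bool Bool.toNat).to_comp.comp hc
    obtain ⟨c, hc⟩ := Nat.Partrec.Code.exists_code.1 (Partrec.nat_iff.1 h1.partrec)
    set s := encode c with hs
    have h2 : pre D (st f T (s + 1)).length = st f T (s + 1) := hlim (s + 1)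
    have h3 : st f T (s + 1) = mid f T s (st f T s) ++
      [!(decide (1 ∈ (Denumerable.ofNat Code s).eval (mid f T s (st f T s)).length))] := rfl
    set τ := mid f T s (st f T s) with hτ
    have h4 : (pre D (st f T (s + 1)).length)[τ.length]? = some (D τ.length) :=
      pre_getElem? _ _ _ (by rw [h3]; simp)
    rw [h2, h3, hs, Denumerable.ofNat_encode, hc] at h4
    simp only [List.getElem?_append_right (le_refl _), Nat.sub_self, List.getElem?_cons_zero,
      Option.some.injEq] at h4
    cases h5 : D τ.length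
    · rw [h5] at h4
      simp [h5] at h4
    · rw [h5] at h4
      simp [h5] at h4
  · intro e he
    obtain ⟨E, hE, mE, eE⟩ := tLe_iff.1 he
    obtain ⟨c, hc⟩ := Nat.Partrec.Code.exists_code.1 hE.re
    have hacc : ∀ σ x b, Acc (encode c) σ x b ↔ E (σ, x, b) := by
      intro σ x b
      unfold Acc
      rw [Denumerable.ofNat_encode, hc]
      simp [Part.assert]
    set s := Nat.pair (encode c) e with hs
    set σ := st f T s with hσ
    have hs1 : s.unpair.1 = encode c := by rw [hs, Nat.unpair_pair]
    have hs2 : s.unpair.2 = e := by rw [hs, Nat.unpair_pair]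
    by_cases hd : (f (encode c, σ)).Dom
    · -- the splitting case is impossible
      exfalso
      have h1 := hf1 _ _ (Part.get_mem hd)
      set w := (f (encode c, σ)).get hd with hw
      have h2 : mid f T s σ = bif T e w.2.2 then w.1 else w.2.1 := by
        unfold mid
        simp only [hs1, hs2]
        rw [dif_pos hd]
      have h3 : pre D (mid f T s σ).length = mid f T s σ :=
        pre_of_prefix (hlim (s + 1)) (hp2 s)
      cases h4 : T e w.2.2
      · have h5 := h1.2.2
        simp only at h5
        rw [hacc] at h5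
        rw [h4, cond_false] at h2
        rw [h2] at h3
        rw [← h3] at h5
        have := (eE w.2.2 true).2 ⟨_, h5⟩
        rw [h4] at this
        cases this
      · have h5 := h1.2.1
        simp only at h5
        rw [hacc] at h5
        rw [h4, cond_true] at h2
        rw [h2] at h3
        rw [← h3] at h5
        have := (eE w.2.2 false).2 ⟨_, h5⟩
        rw [h4] at this
        cases this
    · have hd' : ¬ ∃ b, Splits ((encode c, σ), b) := fun h => hd ((hf2 _).2 h)
      refine computable_of_graph ?_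
      have h1 : S1 fun x : ℕ × Bool => ∃ τ : List Bool, σ <+: τ ∧ E (τ, x) := by
        refine S1.ex (p := fun (x : ℕ × Bool) (τ : List Bool) => σ <+: τ ∧ E (τ, x))
          (S1.and (s1_prefix (Primrec.const σ) Primrec.snd) ?_)
        exact hE.comp (f := fun x : (ℕ × Bool) × List Bool => (x.2, x.1))
          (Primrec.snd.pair Primrec.fst)
      refine h1.of_eq fun x => ?_
      rcases x with ⟨x, b⟩
      have key : ∀ b, T e x = b → ∃ τ : List Bool, σ <+: τ ∧ E (τ, x, b) := by
        intro b hb
        obtain ⟨k, hk⟩ := (eE x b).1 hb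
        refine ⟨pre D (max k σ.length), ?_, ?_⟩
        · conv_lhs => rw [hσ, ← hlim s]
          exact pre_prefix D (le_max_right _ _)
        · exact mE _ _ _ _ (pre_prefix D (le_max_left _ _)) hk
      constructor
      · rintro ⟨τ, h2, h3⟩
        by_contra hb
        obtain ⟨τ', h4, h5⟩ := key _ rfl
        apply hd'
        cases b
        · have h6 : T e x = true := by simpa using hb
          rw [h6] at h5
          exact ⟨(τ, τ', x), ⟨h2, h4⟩, (hacc _ _ _).2 h3, (hacc _ _ _).2 h5⟩
        · have h6 : T e x = false := by simpa using hb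
          rw [h6] at h5
          exact ⟨(τ', τ, x), ⟨h4, h2⟩, (hacc _ _ _).2 h5, (hacc _ _ _).2 h3⟩
      · exact key b

end

end Pool.Agent.K9h72.DT
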