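import Pool.Agent.K9h72.DT.Syn

/-!
The set of the Gödel numbers of sentences is computably enumerable; truth of formulas in a
computable structure and iterated jumps.
-/

set_option autoImplicit false

namespace Pool.Agent.K9h72.DT

open Encodable
open Nat.Partrec (Code)
open Pool.Agent.Helper227

variable {S : Signature}

theorem lt_encode_of_mem (l : List ℕ) : ∀ y ∈ l, y < encode l := by
  induction l with
  | nil => intro y hy; cases hy
  | cons a l ih =>
    intro y hy
    rw [Encodable.encode_list_cons]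
    have h1 := Nat.left_le_pair (encode a) (encode l)
    have h2 := Nat.right_le_pair (encode a) (encode l)
    rcases List.mem_cons.1 hy with rfl | h
    · exact Nat.lt_succ_of_le h1
    · exact Nat.lt_succ_of_le ((ih y h).le.trans h2)

theorem add_le_pair' (a b : ℕ) : a + b ≤ Nat.pair a b := Nat.add_le_pair a b

/-- `x` is the code of a term in `n` variables. -/
def WT (S : Signature) (n x : ℕ) : Prop := ∃ t : S.lang.Term (Empty ⊕ Fin n), tmCode t = x

/-- `x` is the code of a term provided that the elements of `L` are. -/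
def JT (S : Signature) (n x : ℕ) (L : List ℕ) : Prop :=
  (∃ i, i < n ∧ x = Nat.pair 0 i) ∨
  ∃ f, ∃ l : List ℕ, (x = Nat.pair 1 (Nat.pair f (encode l)) ∧ S.fnArity f = some l.length) ∧
    ∀ y ∈ l, y ∈ L

theorem wt_func {n f : ℕ} {l : List ℕ} (hf : S.fnArity f = some l.length)
    (hl : ∀ y ∈ l, WT S n y) : WT S n (Nat.pair 1 (Nat.pair f (encode l))) := by
  have h1 : ∀ i : Fin l.length, ∃ t : S.lang.Term (Empty ⊕ Fin n), tmCode t = l[i] :=
    fun i => hl _ (List.getElem_mem _)
  choose ts hts using h1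
  refine ⟨.func (l := l.length) (⟨f, hf⟩ : S.lang.Functions l.length) ts, ?_⟩
  simp only [tmCode, hts]
  congr 3
  exact List.ofFn_getElem

theorem wt_iff {n x : ℕ} : WT S n x ↔ ∃ L : List ℕ, x ∈ L ∧ ∀ y ∈ L, JT S n y L := by
  classical
  constructor
  · intro h
    refine ⟨(List.range (x + 1)).filter (fun y => WT S n y), by simp [h], ?_⟩
    intro y hy
    simp only [List.mem_filter, List.mem_range, decide_eq_true_eq] at hy
    obtain ⟨hy1, t, rfl⟩ := hy
    cases t with
    | var i =>
      rcases i with i | i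
      · exact i.elim
      exact Or.inl ⟨i, i.2, rfl⟩
    | func f ts =>
      refine Or.inr ⟨f.1, List.ofFn fun i => tmCode (ts i), ⟨rfl, ?_⟩, ?_⟩
      · rw [List.length_ofFn]; exact f.2
      · intro y hy
        have h2 := lt_encode_of_mem _ y hy
        rw [List.mem_ofFn] at hy
        obtain ⟨i, rfl⟩ := hy
        simp only [List.mem_filter, List.mem_range, decide_eq_true_eq]
        refine ⟨?_, ⟨ts i, rfl⟩⟩
        simp only [tmCode] at hy1
        have h3 := Nat.right_le_pair 1 (Nat.pair f.1 (encode (List.ofFn fun i => tmCode (ts i))))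
        have h4 := Nat.right_le_pair f.1 (encode (List.ofFn fun i => tmCode (ts i)))
        omega
  · rintro ⟨L, hx, hL⟩
    have key : ∀ y, y ∈ L → WT S n y := by
      intro y
      induction y using Nat.strong_induction_on with
      | _ y ih =>
        intro hy
        rcases hL y hy with ⟨i, hi, rfl⟩ | ⟨f, l, ⟨rfl, hf⟩, hl⟩
        · exact ⟨.var (.inr ⟨i, hi⟩), rfl⟩
        · refine wt_func hf fun z hz => ih z ?_ (hl z hz)
          have h2 := lt_encode_of_mem _ z hz
          have h3 := Nat.right_le_pair 1 (Nat.pair f (encode l))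
          have h4 := Nat.right_le_pair f (encode l)
          omega
    exact key x hx

/-- `(n, x)` is the code of a formula provided that the elements of `L` are. -/
def JF (S : Signature) (n x : ℕ) (L : List (ℕ × ℕ)) : Prop :=
  x = Nat.pair 0 0 ∨
  (∃ t : ℕ × ℕ, x = Nat.pair 1 (Nat.pair 0 (Nat.pair t.1 t.2)) ∧ (WT S n t.1 ∧ WT S n t.2)) ∨
  (∃ r, ∃ l : List ℕ, (x = Nat.pair 1 (Nat.pair 1 (Nat.pair r (encode l))) ∧
    S.relArity r = some l.length) ∧ ∀ y ∈ l, WT S n y) ∨
  (∃ t : ℕ × ℕ, x = Nat.pair 2 (Nat.pair t.1 t.2) ∧ ((n, t.1) ∈ L ∧ (n, t.2) ∈ L)) ∨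
  (∃ y, x = Nat.pair 3 y ∧ (n + 1, y) ∈ L)

/-- `x` is the code of a formula in `n` free variables. -/
def WF (S : Signature) (n x : ℕ) : Prop := ∃ φ : S.lang.BoundedFormula Empty n, fmCode φ = x

theorem wf_iff {n x : ℕ} :
    WF S n x ↔ ∃ L : List (ℕ × ℕ), (n, x) ∈ L ∧ ∀ q ∈ L, JF S q.1 q.2 L := by
  classical
  constructor
  · intro h
    refine ⟨((List.range (n + x + 1)) ×ˢ (List.range (n + x + 1))).filter
      (fun q => q.1 + q.2 ≤ n + x ∧ WF S q.1 q.2), ?_, ?_⟩
    · simp only [List.mem_filter, List.mem_product, List.mem_range, decide_eq_true_eq]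
      exact ⟨⟨by omega, by omega⟩, le_rfl, h⟩
    · rintro ⟨m, y⟩ hy
      have hmem : ∀ m' y', (m', y') ∈ ((List.range (n + x + 1)) ×ˢ
          (List.range (n + x + 1))).filter (fun q => q.1 + q.2 ≤ n + x ∧ WF S q.1 q.2) ↔
          m' + y' ≤ n + x ∧ WF S m' y' := by
        intro m' y'
        simp only [List.mem_filter, List.mem_product, List.mem_range, decide_eq_true_eq]
        constructor
        · exact fun h => h.2
        · intro h
          exact ⟨⟨by omega, by omega⟩, h⟩
      rw [hmem] at hy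
      obtain ⟨hy1, φ, rfl⟩ := hy
      cases φ with
      | falsum => exact Or.inl rfl
      | equal t₁ t₂ =>
        exact Or.inr (Or.inl ⟨(tmCode t₁, tmCode t₂), rfl, ⟨t₁, rfl⟩, ⟨t₂, rfl⟩⟩)
      | rel R ts =>
        refine Or.inr (Or.inr (Or.inl ⟨R.1, List.ofFn fun i => tmCode (ts i), ⟨rfl, ?_⟩, ?_⟩))
        · rw [List.length_ofFn]; exact R.2
        · intro y hy
          rw [List.mem_ofFn] at hy
          obtain ⟨i, rfl⟩ := hy
          exact ⟨ts i, rfl⟩
      | imp φ ψ =>
        refine Or.inr (Or.inr (Or.inr (Or.inl ⟨(fmCode φ, fmCode ψ), rfl, ?_, ?_⟩)))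
        · rw [hmem]
          refine ⟨?_, φ, rfl⟩
          simp only [fmCode] at hy1
          have h3 := Nat.right_le_pair 2 (Nat.pair (fmCode φ) (fmCode ψ))
          have h4 := Nat.left_le_pair (fmCode φ) (fmCode ψ)
          omega
        · rw [hmem]
          refine ⟨?_, ψ, rfl⟩
          simp only [fmCode] at hy1
          have h3 := Nat.right_le_pair 2 (Nat.pair (fmCode φ) (fmCode ψ))
          have h4 := Nat.right_le_pair (fmCode φ) (fmCode ψ)
          omega
      | all φ =>
        refine Or.inr (Or.inr (Or.inr (Or.inr ⟨fmCode φ, rfl, ?_⟩)))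
        rw [hmem]
        refine ⟨?_, φ, rfl⟩
        simp only [fmCode] at hy1
        have h3 := add_le_pair' 3 (fmCode φ)
        omega
  · rintro ⟨L, hx, hL⟩
    have key : ∀ y m, (m, y) ∈ L → WF S m y := by
      intro y
      induction y using Nat.strong_induction_on with
      | _ y ih =>
        intro m hy
        rcases hL _ hy with h | ⟨t, h, ⟨t₁, h1⟩, ⟨t₂, h2⟩⟩ | ⟨r, l, ⟨h, hr⟩, hl⟩ |
          ⟨t, h, h1, h2⟩ | ⟨z, h, h1⟩
        · exact ⟨.falsum, h.symm⟩
        · refine ⟨.equal t₁ t₂, ?_⟩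
          simp only at h
          rw [h, fmCode, h1, h2]
        · simp only at h hl
          have h1 : ∀ i : Fin l.length, ∃ t : S.lang.Term (Empty ⊕ Fin m), tmCode t = l[i] :=
            fun i => hl _ (List.getElem_mem _)
          choose ts hts using h1
          refine ⟨.rel (l := l.length) (⟨r, hr⟩ : S.lang.Relations l.length) ts, ?_⟩
          simp only [fmCode, hts]
          rw [h]
          congr 4
          exact List.ofFn_getElem
        · simp only at h h1 h2
          have h3 := add_le_pair' 2 (Nat.pair t.1 t.2)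
          have h4 := Nat.left_le_pair t.1 t.2
          have h5 := Nat.right_le_pair t.1 t.2
          obtain ⟨φ, h6⟩ := ih t.1 (by omega) m h1
          obtain ⟨ψ, h7⟩ := ih t.2 (by omega) m h2
          refine ⟨.imp φ ψ, ?_⟩
          rw [h, fmCode, h6, h7]
        · simp only at h h1
          have h3 := add_le_pair' 3 z
          obtain ⟨φ, h6⟩ := ih z (by omega) (m + 1) h1
          refine ⟨.all φ, ?_⟩
          rw [h, fmCode, h6]
    exact key x n hx

theorem s1_arity {ar : ℕ → Option ℕ} (har : Computable ar) {α : Type} [Primcodable α] {f k : α → ℕ}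
    (hf : Primrec f) (hk : Primrec k) : S1 fun a => ar (f a) = some (k a) := by
  have h1 : S1 fun x : Option ℕ × ℕ => x.1 = some x.2 :=
    S1.of_prim (Primrec.eq.comp Primrec.fst (Primrec.option_some.comp Primrec.snd))
  exact h1.comp_computable (f := fun a => (ar (f a), k a))
    ((har.comp hf.to_comp).pair hk.to_comp)

theorem s1_mem_list {α β : Type} [Primcodable α] [Primcodable β] {f : α → β} {l : α → List β}
    (hf : Primrec f) (hl : Primrec l) : S1 fun a => f a ∈ l a := by
  classical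
  have h : PrimrecPred fun a => ∃ b ∈ l a, f a = b :=
    PP.ex_mem (f := l) (p := fun a b => f a = b)
      (Primrec.eq.comp (hf.comp Primrec.fst) Primrec.snd) hl
  exact (S1.of_prim h).of_eq fun a => by simp

theorem s1_WT (hS : Computable S.fnArity) : S1 fun q : ℕ × ℕ => WT S q.1 q.2 := by
  have h : S1 fun q : ℕ × ℕ => ∃ L : List ℕ, q.2 ∈ L ∧ ∀ y ∈ L, JT S q.1 y L := by
    refine S1.ex (p := fun (q : ℕ × ℕ) (L : List ℕ) => q.2 ∈ L ∧ ∀ y ∈ L, JT S q.1 y L)
      (S1.and (s1_mem_list (Primrec.snd.comp Primrec.fst) Primrec.snd) ?_)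
    refine S1.all_mem (α := (ℕ × ℕ) × List ℕ) (p := fun x y => JT S x.1.1 y x.2)
      (f := fun x => x.2) ?_ Primrec.snd
    refine S1.or ?_ ?_
    · refine S1.ex (p := fun (z : ((ℕ × ℕ) × List ℕ) × ℕ) (i : ℕ) => i < z.1.1.1 ∧
        z.2 = Nat.pair 0 i) (S1.of_prim (PrimrecPred.and ?_ ?_))
      · exact Primrec.nat_lt.comp Primrec.snd
          (Primrec.fst.comp (Primrec.fst.comp (Primrec.fst.comp Primrec.fst)))
      · exact Primrec.eq.comp (Primrec.snd.comp Primrec.fst)
          (Primrec₂.natPair.comp (Primrec.const 0) Primrec.snd)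
    · refine S1.ex (S1.ex (S1.and (S1.and (S1.of_prim ?_) ?_) ?_))
      · refine Primrec.eq.comp (Primrec.snd.comp (Primrec.fst.comp Primrec.fst))
          (Primrec₂.natPair.comp (Primrec.const 1) (Primrec₂.natPair.comp
            (Primrec.snd.comp Primrec.fst) (Primrec.encode.comp Primrec.snd)))
      · exact s1_arity hS (Primrec.snd.comp Primrec.fst) (Primrec.list_length.comp Primrec.snd)
      · refine S1.all_mem (α := ((((ℕ × ℕ) × List ℕ) × ℕ) × ℕ) × List ℕ)
          (p := fun x y => y ∈ x.1.1.1.2) (f := fun x => x.2) ?_ Primrec.snd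
        exact s1_mem_list Primrec.snd (Primrec.snd.comp (Primrec.fst.comp
          (Primrec.fst.comp (Primrec.fst.comp Primrec.fst))))
  exact h.of_eq fun q => wt_iff.symm

theorem s1_WF (hS : S.IsComputable) : S1 fun q : ℕ × ℕ => WF S q.1 q.2 := by
  have hT := s1_WT hS.1
  have h : S1 fun q : ℕ × ℕ => ∃ L : List (ℕ × ℕ), (q.1, q.2) ∈ L ∧
      ∀ r ∈ L, JF S r.1 r.2 L := by
    refine S1.ex (p := fun (q : ℕ × ℕ) (L : List (ℕ × ℕ)) => (q.1, q.2) ∈ L ∧
      ∀ r ∈ L, JF S r.1 r.2 L) (S1.and (s1_mem_list Primrec.fst Primrec.snd) ?_)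
    refine S1.all_mem (α := (ℕ × ℕ) × List (ℕ × ℕ)) (p := fun x r => JF S r.1 r.2 x.2)
      (f := fun x => x.2) ?_ Primrec.snd
    have z1 : Primrec fun z : ((ℕ × ℕ) × List (ℕ × ℕ)) × (ℕ × ℕ) => z.2.1 :=
      Primrec.fst.comp Primrec.snd
    have z2 : Primrec fun z : ((ℕ × ℕ) × List (ℕ × ℕ)) × (ℕ × ℕ) => z.2.2 :=
      Primrec.snd.comp Primrec.snd
    have z3 : Primrec fun z : ((ℕ × ℕ) × List (ℕ × ℕ)) × (ℕ × ℕ) => z.1.2 :=
      Primrec.snd.comp Primrec.fst
    refine S1.or ?_ (S1.or ?_ (S1.or ?_ (S1.or ?_ ?_)))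
    · exact S1.of_prim (Primrec.eq.comp z2 (Primrec.const _))
    · refine S1.ex (S1.and (S1.of_prim ?_) (S1.and ?_ ?_))
      · refine Primrec.eq.comp (z2.comp Primrec.fst) (Primrec₂.natPair.comp (Primrec.const 1)
          (Primrec₂.natPair.comp (Primrec.const 0) (Primrec₂.natPair.comp ?_ ?_)))
        · exact Primrec.fst.comp Primrec.snd
        · exact Primrec.snd.comp Primrec.snd
      · exact hT.comp (f := fun z : (((ℕ × ℕ) × List (ℕ × ℕ)) × (ℕ × ℕ)) × (ℕ × ℕ) =>
          (z.1.2.1, z.2.1)) ((z1.comp Primrec.fst).pair (Primrec.fst.comp Primrec.snd))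
      · exact hT.comp (f := fun z : (((ℕ × ℕ) × List (ℕ × ℕ)) × (ℕ × ℕ)) × (ℕ × ℕ) =>
          (z.1.2.1, z.2.2)) ((z1.comp Primrec.fst).pair (Primrec.snd.comp Primrec.snd))
    · refine S1.ex (S1.ex (S1.and (S1.and (S1.of_prim ?_) ?_) ?_))
      · refine Primrec.eq.comp (z2.comp (Primrec.fst.comp Primrec.fst))
          (Primrec₂.natPair.comp (Primrec.const 1) (Primrec₂.natPair.comp (Primrec.const 1)
            (Primrec₂.natPair.comp (Primrec.snd.comp Primrec.fst)
              (Primrec.encode.comp Primrec.snd))))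
      · exact s1_arity hS.2 (Primrec.snd.comp Primrec.fst) (Primrec.list_length.comp Primrec.snd)
      · refine S1.all_mem
          (α := ((((ℕ × ℕ) × List (ℕ × ℕ)) × (ℕ × ℕ)) × ℕ) × List ℕ)
          (p := fun x y => WT S x.1.1.2.1 y) (f := fun x => x.2) ?_ Primrec.snd
        exact hT.comp (f := fun z : (((((ℕ × ℕ) × List (ℕ × ℕ)) × (ℕ × ℕ)) × ℕ) × List ℕ) × ℕ =>
          (z.1.1.1.2.1, z.2)) ((z1.comp (Primrec.fst.comp (Primrec.fst.comp Primrec.fst))).pair
            Primrec.snd)
    · refine S1.ex (S1.and (S1.of_prim ?_) (S1.and ?_ ?_))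
      · refine Primrec.eq.comp (z2.comp Primrec.fst) (Primrec₂.natPair.comp (Primrec.const 2)
          (Primrec₂.natPair.comp ?_ ?_))
        · exact Primrec.fst.comp Primrec.snd
        · exact Primrec.snd.comp Primrec.snd
      · exact s1_mem_list ((z1.comp Primrec.fst).pair (Primrec.fst.comp Primrec.snd))
          (z3.comp Primrec.fst)
      · exact s1_mem_list ((z1.comp Primrec.fst).pair (Primrec.snd.comp Primrec.snd))
          (z3.comp Primrec.fst)
    · refine S1.ex (S1.and (S1.of_prim ?_) ?_)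
      · exact Primrec.eq.comp (z2.comp Primrec.fst)
          (Primrec₂.natPair.comp (Primrec.const 3) Primrec.snd)
      · exact s1_mem_list ((Primrec.succ.comp (z1.comp Primrec.fst)).pair Primrec.snd)
          (z3.comp Primrec.fst)
  exact h.of_eq fun q => wf_iff.symm

end Pool.Agent.K9h72.DT
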