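import Pool.Agent.K9h72.DT.Form

/-!
Theories of computable structures, the `ω`-jump, and a set which computes only computable ones.
-/

set_option autoImplicit false

namespace Pool.Agent.K9h72.DT

open Encodable
open Nat.Partrec (Code)
open Pool.Agent.Helper227
open FirstOrder.Language (BoundedFormula)

variable {S : Signature}

theorem truth_iff {ρ : Q → ℕ}
    (h0 : ∀ e x a n, x.unpair.1 = 0 → itJ (n + 1) (ρ (e, x, a, n + 1)) = false)
    (h1 : ∀ e x a n, x.unpair.1 = 1 → (itJ (n + 1) (ρ (e, x, a, n + 1)) = true ↔ HA e x a))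
    (h2 : ∀ e x a n, x.unpair.1 = 2 → (itJ (n + 1) (ρ (e, x, a, n + 1)) = true ↔
      (itJ n (ρ (e, x.unpair.2.unpair.1, a, n)) = true →
        itJ n (ρ (e, x.unpair.2.unpair.2, a, n)) = true)))
    (h3 : ∀ e x a n, x.unpair.1 = 3 → (itJ (n + 2) (ρ (e, x, a, n + 2)) = true ↔
      ∀ b, HU e b → itJ n (ρ (e, x.unpair.2, a ++ [b], n)) = true))
    {U : Set ℕ} [S.lang.Structure U] {e : ℕ} (hU : ∀ b, HU e b ↔ b ∈ U)
    (hA : ∀ x a, HA e x a ↔ Nat.pair x (encode a) ∈ AtomicDiagram S U) {n : ℕ}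
    (φ : S.lang.BoundedFormula Empty n) :
    ∀ (a : Fin n → U) (k : ℕ), 2 * fmCode φ + 1 ≤ k →
      (itJ k (ρ (e, fmCode φ, List.ofFn (fun i => (a i : ℕ)), k)) = true ↔
        φ.Realize Empty.elim a) := by
  induction φ with
  | falsum =>
    intro a k hk
    obtain ⟨k, rfl⟩ : ∃ m, k = m + 1 := ⟨k - 1, by omega⟩
    rw [h0 _ _ _ _ (by simp [fmCode])]
    simp only [Bool.false_eq_true, false_iff]
    exact fun h => h
  | equal t₁ t₂ =>
    intro a k hk
    obtain ⟨k, rfl⟩ : ∃ m, k = m + 1 := ⟨k - 1, by omega⟩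
    rw [h1 _ _ _ _ (by simp [fmCode]), hA]
    exact mem_atomicDiagram (BoundedFormula.IsAtomic.equal t₁ t₂) a
  | rel R ts =>
    intro a k hk
    obtain ⟨k, rfl⟩ : ∃ m, k = m + 1 := ⟨k - 1, by omega⟩
    rw [h1 _ _ _ _ (by simp [fmCode]), hA]
    exact mem_atomicDiagram (BoundedFormula.IsAtomic.rel R ts) a
  | imp φ ψ ih1 ih2 =>
    intro a k hk
    obtain ⟨k, rfl⟩ : ∃ m, k = m + 1 := ⟨k - 1, by omega⟩
    rw [h2 _ _ _ _ (by simp [fmCode]), BoundedFormula.realize_imp]
    simp only [fmCode, Nat.unpair_pair]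
    simp only [fmCode] at hk
    have h4 := add_le_pair' 2 (Nat.pair (fmCode φ) (fmCode ψ))
    have h5 := Nat.left_le_pair (fmCode φ) (fmCode ψ)
    have h6 := Nat.right_le_pair (fmCode φ) (fmCode ψ)
    rw [ih1 a k (by omega), ih2 a k (by omega)]
  | all φ ih =>
    intro a k hk
    have h4 := add_le_pair' 3 (fmCode φ)
    simp only [fmCode] at hk
    obtain ⟨k, rfl⟩ : ∃ m, k = m + 2 := ⟨k - 2, by omega⟩
    rw [h3 _ _ _ _ (by simp [fmCode]), BoundedFormula.realize_all]
    simp only [fmCode, Nat.unpair_pair]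
    have key : ∀ b : U, List.ofFn (fun i => (a i : ℕ)) ++ [(b : ℕ)] =
        List.ofFn (fun i => ((Fin.snoc a b : Fin _ → U) i : ℕ)) := by
      intro b
      rw [List.ofFn_succ']
      simp
    constructor
    · intro h b
      rw [← ih _ k (by omega), ← key]
      exact h b ((hU b).2 b.2)
    · intro h b hb
      have := (ih (Fin.snoc a ⟨b, (hU b).1 hb⟩) k (by omega)).2 (h _)
      rw [← key] at this
      exact this

section
open Classical

/-- The list of sets which contains the theories of the computable structures. -/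
noncomputable def TT (ρ : Q → ℕ) (k x : ℕ) : Bool :=
  decide (((Denumerable.ofNat Code k.unpair.2).eval x).Dom ∧
    om (Nat.pair (2 * x + 1) (ρ (k.unpair.1, x, [], 2 * x + 1))) = true)

theorem TT_le {ρ : Q → ℕ} (hρ : Computable ρ) :
    TLe (fun z => TT ρ z.unpair.1 z.unpair.2) om := by
  rw [tLe_iff_SI]
  have h1 : S1 fun z : ℕ => ((Denumerable.ofNat Code z.unpair.1.unpair.2).eval z.unpair.2).Dom :=
    s1_eval.comp (f := fun z : ℕ => (Denumerable.ofNat Code z.unpair.1.unpair.2, z.unpair.2))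
      (((Primrec.ofNat Code).comp (Primrec.snd.comp (Primrec.unpair.comp
        (Primrec.fst.comp Primrec.unpair)))).pair (Primrec.snd.comp Primrec.unpair))
  have h2 := si_of_s1 jump_le_om h1
  have h3 : Computable fun z : ℕ => Nat.pair (2 * z.unpair.2 + 1)
      (ρ (z.unpair.1.unpair.1, z.unpair.2, [], 2 * z.unpair.2 + 1)) := by
    have e1 : Primrec fun z : ℕ => 2 * z.unpair.2 + 1 :=
      Primrec.succ.comp (Primrec.nat_mul.comp (Primrec.const 2)
        (Primrec.snd.comp Primrec.unpair))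
    have e2 : Primrec fun z : ℕ => ((z.unpair.1.unpair.1, z.unpair.2, [],
        2 * z.unpair.2 + 1) : Q) :=
      (Primrec.fst.comp (Primrec.unpair.comp (Primrec.fst.comp Primrec.unpair))).pair
        ((Primrec.snd.comp Primrec.unpair).pair ((Primrec.const []).pair e1))
    exact Primrec₂.natPair.to_comp.comp e1.to_comp (hρ.comp e2.to_comp)
  have h4 : ∀ b : Bool, SI om fun z : ℕ => om (Nat.pair (2 * z.unpair.2 + 1)
      (ρ (z.unpair.1.unpair.1, z.unpair.2, [], 2 * z.unpair.2 + 1))) = b := fun b =>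
    SI.comp_computable (f := fun z : ℕ => (Nat.pair (2 * z.unpair.2 + 1)
      (ρ (z.unpair.1.unpair.1, z.unpair.2, [], 2 * z.unpair.2 + 1)), b)) SI.query
      (h3.pair (Computable.const b))
  have h5 : ∀ b : Bool, SI om fun x : ℕ × Bool => x.2 = b := fun b =>
    SI.of_prim (Primrec.eq.comp Primrec.snd (Primrec.const b))
  refine (SI.or (SI.and (SI.and (h2.1.comp Primrec.fst) ((h4 true).comp Primrec.fst)) (h5 true))
    (SI.and (SI.or (h2.2.comp (f := fun x : ℕ × Bool => x.1) Primrec.fst)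
      ((h4 false).comp Primrec.fst)) (h5 false))).of_eq fun x => ?_
  rcases x with ⟨z, b⟩
  simp only [TT]
  by_cases h6 : ((Denumerable.ofNat Code z.unpair.1.unpair.2).eval z.unpair.2).Dom
  · cases h7 : om (Nat.pair (2 * z.unpair.2 + 1)
      (ρ (z.unpair.1.unpair.1, z.unpair.2, [], 2 * z.unpair.2 + 1))) <;> cases b <;> simp [h6]
  · cases b <;> simp [h6]

/-- A structure on the computable set `U` with a computable atomic diagram has its theory in the
list. -/
theorem exists_index {ρ : Q → ℕ}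
    (h0 : ∀ e x a n, x.unpair.1 = 0 → itJ (n + 1) (ρ (e, x, a, n + 1)) = false)
    (h1 : ∀ e x a n, x.unpair.1 = 1 → (itJ (n + 1) (ρ (e, x, a, n + 1)) = true ↔ HA e x a))
    (h2 : ∀ e x a n, x.unpair.1 = 2 → (itJ (n + 1) (ρ (e, x, a, n + 1)) = true ↔
      (itJ n (ρ (e, x.unpair.2.unpair.1, a, n)) = true →
        itJ n (ρ (e, x.unpair.2.unpair.2, a, n)) = true)))
    (h3 : ∀ e x a n, x.unpair.1 = 3 → (itJ (n + 2) (ρ (e, x, a, n + 2)) = true ↔
      ∀ b, HU e b → itJ n (ρ (e, x.unpair.2, a ++ [b], n)) = true))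
    (hS : S.IsComputable) {T : S.lang.Theory} (hT : T.IsMaximal) {U : Set ℕ}
    [S.lang.Structure U] [Nonempty U] (hUc : ComputablePred (· ∈ U))
    (hAc : ComputablePred (· ∈ AtomicDiagram S U)) (hM : U ⊨ T) :
    ∃ k, ∀ x, TT ρ k x = decide (x ∈ godelSet T) := by
  -- the program of the structure
  have hP : S1 fun s : ℕ ⊕ (ℕ × List ℕ) => (∃ b, s = Sum.inl b ∧ b ∈ U) ∨
      ∃ q : ℕ × List ℕ, s = Sum.inr q ∧ Nat.pair q.1 (encode q.2) ∈ AtomicDiagram S U := by
    refine S1.or (S1.ex (S1.and (S1.of_prim ?_) ?_)) (S1.ex (S1.and (S1.of_prim ?_) ?_))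
    · exact Primrec.eq.comp Primrec.fst (Primrec.sumInl.comp Primrec.snd)
    · exact (S1.of_re hUc.to_re).comp (f := fun x : (ℕ ⊕ (ℕ × List ℕ)) × ℕ => x.2) Primrec.snd
    · exact Primrec.eq.comp Primrec.fst (Primrec.sumInr.comp Primrec.snd)
    · exact (S1.of_re hAc.to_re).comp (f := fun x : (ℕ ⊕ (ℕ × List ℕ)) × (ℕ × List ℕ) =>
        Nat.pair x.2.1 (encode x.2.2)) (Primrec₂.natPair.comp (Primrec.fst.comp Primrec.snd)
          (Primrec.encode.comp (Primrec.snd.comp Primrec.snd)))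
  obtain ⟨c, hc⟩ := Nat.Partrec.Code.exists_code.1 hP.re
  have hU : ∀ b, HU (encode c) b ↔ b ∈ U := by
    intro b
    unfold HU
    rw [Denumerable.ofNat_encode, hc]
    simp only [encodek, Part.coe_some, Part.bind_some, Part.map_Dom, Part.assert, Part.dom_iff_mem]
    simp
  have hA : ∀ x a, HA (encode c) x a ↔ Nat.pair x (encode a) ∈ AtomicDiagram S U := by
    intro x a
    unfold HA
    rw [Denumerable.ofNat_encode, hc]
    simp only [encodek, Part.coe_some, Part.bind_some, Part.map_Dom, Part.assert, Part.dom_iff_mem]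
    simp
  -- the program of the set of sentences
  have hV : S1 fun x : ℕ => WF S 0 x :=
    (s1_WF hS).comp (f := fun x : ℕ => (0, x)) ((Primrec.const 0).pair Primrec.id)
  obtain ⟨d, hd⟩ := Nat.Partrec.Code.exists_code.1 hV.re
  have hV' : ∀ x, (d.eval x).Dom ↔ WF S 0 x := by
    intro x
    rw [hd]
    simp [Part.assert]
  refine ⟨Nat.pair (encode c) (encode d), fun x => ?_⟩
  unfold TT
  simp only [Nat.unpair_pair, Denumerable.ofNat_encode, hV', om]
  refine decide_eq_decide.2 ?_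
  have key : ∀ φ : S.lang.Sentence, itJ (2 * fmCode φ + 1)
      (ρ (encode c, fmCode φ, [], 2 * fmCode φ + 1)) = true ↔ U ⊨ φ := by
    intro φ
    have := truth_iff h0 h1 h2 h3 hU hA φ (default : Fin 0 → U) (2 * fmCode φ + 1) le_rfl
    rw [List.ofFn_zero] at this
    rw [this]
    unfold FirstOrder.Language.Sentence.Realize FirstOrder.Language.Formula.Realize
    rw [Subsingleton.elim (Empty.elim : Empty → U) default]
  constructor
  · rintro ⟨⟨φ, rfl⟩, h⟩
    rw [key] at h
    rcases hT.2 φ with h5 | h5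
    · exact ⟨φ, h5, rfl⟩
    · have h6 := hM.realize_of_mem _ h5
      rw [FirstOrder.Language.Sentence.realize_not] at h6
      exact absurd h h6
  · rintro ⟨φ, hφ, rfl⟩
    exact ⟨⟨φ, rfl⟩, (key φ).2 (hM.realize_of_mem _ hφ)⟩

end

end Pool.Agent.K9h72.DT
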