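import Pool.Agent.K9h72.DT.Truth

/-!
Computable signatures, Gödel numbers, computable structures.
-/

set_option autoImplicit false

namespace Pool.Agent.K9h72.DT

open Encodable
open Nat.Partrec (Code)
open Pool.Agent.Helper227


/-- A signature whose function and relation symbols are numbered by natural numbers:
`fnArity i = some n` means that `i` is (the number of) a function symbol of arity `n`, and
`fnArity i = none` that there is no function symbol with the number `i`; likewise for relation
symbols. -/
structure Signature where
  /-- the arities of the function symbols -/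
  fnArity : ℕ → Option ℕ
  /-- the arities of the relation symbols -/
  relArity : ℕ → Option ℕ

/-- The first order language of the signature. -/
def Signature.lang (S : Signature) : FirstOrder.Language.{0, 0} where
  Functions n := {i : ℕ // S.fnArity i = some n}
  Relations n := {i : ℕ // S.relArity i = some n}

/-- The signature is computable: its symbols and their arities are given effectively. -/
def Signature.IsComputable (S : Signature) : Prop :=
  Computable S.fnArity ∧ Computable S.relArity

variable {S : Signature}

/-- The Gödel number of a term in the variables `0, ..., n - 1`. -/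
def tmCode {n : ℕ} : S.lang.Term (Empty ⊕ Fin n) → ℕ
  | .var (.inr i) => Nat.pair 0 i
  | .func f ts => Nat.pair 1 (Nat.pair f.1 (encode (List.ofFn fun i => tmCode (ts i))))

/-- The Gödel number of a formula. -/
def fmCode : {n : ℕ} → S.lang.BoundedFormula Empty n → ℕ
  | _, .falsum => Nat.pair 0 0
  | _, .equal t₁ t₂ => Nat.pair 1 (Nat.pair 0 (Nat.pair (tmCode t₁) (tmCode t₂)))
  | _, .rel R ts =>
    Nat.pair 1 (Nat.pair 1 (Nat.pair R.1 (encode (List.ofFn fun i => tmCode (ts i)))))
  | _, .imp φ ψ => Nat.pair 2 (Nat.pair (fmCode φ) (fmCode ψ))
  | _, .all φ => Nat.pair 3 (fmCode φ)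

/-- The set of the Gödel numbers of the elements of the theory `T`. -/
def godelSet (T : S.lang.Theory) : Set ℕ := {x | ∃ φ ∈ T, fmCode φ = x}

/-- The atomic diagram of a structure whose universe is the set `U` of natural numbers: the codes
of all `(φ, (a₀, ..., aₙ₋₁))` where `φ` is an atomic formula in the variables `0, ..., n - 1` which
holds at the elements `a₀, ..., aₙ₋₁` of `U`. -/
def AtomicDiagram (S : Signature) (U : Set ℕ) [S.lang.Structure U] : Set ℕ :=
  {z | ∃ (n : ℕ) (φ : S.lang.BoundedFormula Empty n) (a : Fin n → U),
    φ.IsAtomic ∧ φ.Realize Empty.elim a ∧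
      z = Nat.pair (fmCode φ) (encode (List.ofFn fun i => (a i : ℕ)))}

theorem tmCode_injective {n : ℕ} : Function.Injective (tmCode (S := S) (n := n)) := by
  intro s
  induction s with
  | var i =>
    rcases i with i | i
    · exact i.elim
    intro t h
    cases t with
    | var j =>
      rcases j with j | j
      · exact j.elim
      simp only [tmCode, Nat.pair_eq_pair, true_and] at h
      rw [Fin.ext h]
    | func f ts =>
      simp [tmCode] at h
  | func f ts ih =>
    intro t h
    cases t with
    | var j =>
      rcases j with j | j
      · exact j.elim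
      simp [tmCode] at h
    | func f' ts' =>
      simp only [tmCode, Nat.pair_eq_pair, true_and] at h
      obtain ⟨h1, h2⟩ := h
      have h3 := encode_injective h2
      have h4 := congrArg List.length h3
      simp only [List.length_ofFn] at h4
      subst h4
      have h5 : f = f' := Subtype.ext h1
      subst h5
      have h6 := List.ofFn_injective h3
      congr 1
      funext i
      exact ih i (congrFun h6 i)

theorem fmCode_injective {n : ℕ} : Function.Injective (fmCode (S := S) (n := n)) := by
  intro φ
  induction φ with
  | falsum => intro ψ h; cases ψ <;> simp [fmCode] at h ⊢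
  | equal t₁ t₂ =>
    intro ψ h
    cases ψ with
    | falsum => simp [fmCode] at h
    | equal s₁ s₂ =>
      simp only [fmCode, Nat.pair_eq_pair, true_and] at h
      rw [tmCode_injective h.1, tmCode_injective h.2]
    | rel R ts => simp [fmCode] at h
    | imp φ ψ => simp [fmCode] at h
    | all φ => simp [fmCode] at h
  | rel R ts =>
    intro ψ h
    cases ψ with
    | falsum => simp [fmCode] at h
    | equal s₁ s₂ => simp [fmCode] at h
    | rel R' ts' =>
      simp only [fmCode, Nat.pair_eq_pair, true_and] at h
      obtain ⟨h1, h2⟩ := h
      have h3 := encode_injective h2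
      have h4 := congrArg List.length h3
      simp only [List.length_ofFn] at h4
      subst h4
      have h5 : R = R' := Subtype.ext h1
      subst h5
      have h6 := List.ofFn_injective h3
      congr 1
      funext i
      exact tmCode_injective (congrFun h6 i)
    | imp φ ψ => simp [fmCode] at h
    | all φ => simp [fmCode] at h
  | imp φ₁ φ₂ ih₁ ih₂ =>
    intro ψ h
    cases ψ with
    | falsum => simp [fmCode] at h
    | equal s₁ s₂ => simp [fmCode] at h
    | rel R ts => simp [fmCode] at h
    | imp ψ₁ ψ₂ =>
      simp only [fmCode, Nat.pair_eq_pair, true_and] at h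
      rw [ih₁ h.1, ih₂ h.2]
    | all φ => simp [fmCode] at h
  | all φ ih =>
    intro ψ h
    cases ψ with
    | falsum => simp [fmCode] at h
    | equal s₁ s₂ => simp [fmCode] at h
    | rel R ts => simp [fmCode] at h
    | imp φ ψ => simp [fmCode] at h
    | all ψ =>
      simp only [fmCode, Nat.pair_eq_pair, true_and] at h
      rw [ih h]

/-- Atomic formulas: membership in the atomic diagram. -/
theorem mem_atomicDiagram {U : Set ℕ} [S.lang.Structure U] {n : ℕ}
    {φ : S.lang.BoundedFormula Empty n} (hφ : φ.IsAtomic) (a : Fin n → U) :
    Nat.pair (fmCode φ) (encode (List.ofFn fun i => (a i : ℕ))) ∈ AtomicDiagram S U ↔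
      φ.Realize Empty.elim a := by
  constructor
  · rintro ⟨m, ψ, b, -, h1, h2⟩
    rw [Nat.pair_eq_pair] at h2
    have h3 := encode_injective h2.2
    have h4 := congrArg List.length h3
    simp only [List.length_ofFn] at h4
    subst h4
    have h5 : φ = ψ := fmCode_injective h2.1
    subst h5
    have h6 := List.ofFn_injective h3
    have h7 : a = b := by
      funext i
      exact Subtype.ext (congrFun h6 i)
    rwa [h7]
  · intro h
    exact ⟨n, φ, a, hφ, h, rfl⟩

end Pool.Agent.K9h72.DT
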