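import Pool.Agent.K9h72.DT.Diag

/-!
Uniform reduction of the truth of first order formulas (given by codes) to the iterated jumps.
-/

set_option autoImplicit false

namespace Pool.Agent.K9h72.DT

open Encodable
open Nat.Partrec (Code)
open Pool.Agent.Helper227

/-- The iterated jumps of the empty set. -/
noncomputable def itJ : ℕ → ℕ → Bool
  | 0 => zro
  | n + 1 => jump (itJ n)

/-- The `ω`-jump of the empty set: the code of `(n, x)` belongs to it if and only if `x` belongs
to the `n`-th jump. -/
noncomputable def om : ℕ → Bool := fun z => itJ z.unpair.1 z.unpair.2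

theorem jump_le_om : TLe (jump zro) om := by
  refine tLe_of_computable (f := fun n => Nat.pair 1 n) ?_ fun n => ?_
  · exact (Primrec₂.natPair.comp (Primrec.const 1) Primrec.id).to_comp
  · simp [om, itJ]

/-- Completeness of the jump, uniformly in the oracle. -/
theorem uni_jump {α : Type} [Primcodable α] {E : List Bool × α → Prop} (hE : S1 E) :
    ∃ f : α → ℕ, Computable f ∧ ∀ (A : ℕ → Bool) (a : α),
      jump A (f a) = true ↔ ∃ s, E (pre A s, a) := by
  have h1 : S1 fun m : ℕ => ∃ a : α, ∃ σ : List Bool, ∃ n : ℕ,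
      m = Nat.pair (encode a) (encode (σ, n)) ∧ E (σ, a) := by
    refine S1.ex (S1.ex (S1.ex (S1.and (S1.of_prim ?_) (hE.comp ?_))))
    · refine Primrec.eq.comp (Primrec.fst.comp (Primrec.fst.comp Primrec.fst)) ?_
      refine Primrec₂.natPair.comp (Primrec.encode.comp
        (Primrec.snd.comp (Primrec.fst.comp Primrec.fst))) (Primrec.encode.comp ?_)
      exact (Primrec.snd.comp Primrec.fst).pair Primrec.snd
    · exact (Primrec.snd.comp Primrec.fst).pair (Primrec.snd.comp (Primrec.fst.comp Primrec.fst))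
  obtain ⟨c, hc⟩ := Nat.Partrec.Code.exists_code.1 h1.re
  refine ⟨fun a => encode (Code.curry c (encode a)), ?_, fun A a => ?_⟩
  · have h2 : Primrec fun a : α => Code.curry c (encode a) :=
      Nat.Partrec.Code.primrec₂_curry.comp (Primrec.const c) Primrec.encode
    exact (Primrec.encode.comp h2).to_comp
  · rw [jump_eq_true]
    simp only [WE, Set.mem_ofPred_eq, Denumerable.ofNat_encode, Nat.Partrec.Code.eval_curry]
    rw [hc]
    refine exists_congr fun k => ?_
    simp [Part.assert, pre]

theorem ex_query {A : ℕ → Bool} {z : ℕ} {b : Bool} : (∃ s, (pre A s)[z]? = some b) ↔ A z = b := by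
  constructor
  · rintro ⟨s, hs⟩
    by_cases h : z < s
    · rw [pre_getElem? A _ _ h] at hs
      simpa using hs
    · rw [pre_getElem?_none A _ _ (by omega)] at hs
      cases hs
  · rintro rfl
    exact ⟨z + 1, pre_getElem? A _ _ (by omega)⟩

/-- `b` is accepted as an element by the program `e`. -/
def HU (e b : ℕ) : Prop :=
  ((Denumerable.ofNat Code e).eval (encode (Sum.inl b : ℕ ⊕ (ℕ × List ℕ)))).Dom

/-- The atomic formula `x` is accepted at the assignment `a` by the program `e`. -/
def HA (e x : ℕ) (a : List ℕ) : Prop :=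
  ((Denumerable.ofNat Code e).eval (encode (Sum.inr (x, a) : ℕ ⊕ (ℕ × List ℕ)))).Dom

theorem s1_HU {α : Type} [Primcodable α] {e b : α → ℕ} (he : Primrec e) (hb : Primrec b) :
    S1 fun z => HU (e z) (b z) :=
  s1_eval.comp (f := fun z => (Denumerable.ofNat Code (e z),
    encode (Sum.inl (b z) : ℕ ⊕ (ℕ × List ℕ))))
    (((Primrec.ofNat Code).comp he).pair (Primrec.encode.comp (Primrec.sumInl.comp hb)))

theorem s1_HA {α : Type} [Primcodable α] {e x : α → ℕ} {a : α → List ℕ} (he : Primrec e)
    (hx : Primrec x) (ha : Primrec a) : S1 fun z => HA (e z) (x z) (a z) :=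
  s1_eval.comp (f := fun z => (Denumerable.ofNat Code (e z),
    encode (Sum.inr (x z, a z) : ℕ ⊕ (ℕ × List ℕ))))
    (((Primrec.ofNat Code).comp he).pair
      (Primrec.encode.comp (Primrec.sumInr.comp (hx.pair ha))))

/-- The inputs of the translation: program of the structure, formula, assignment, level. -/
abbrev Q := ℕ × ℕ × List ℕ × ℕ

/-- The decoded input. -/
def dq (m : ℕ) : Q := (decode (α := Q) m).getD (0, 0, [], 0)

theorem dq_encode (q : Q) : dq (encode q) = q := by
  unfold dq
  rw [encodek]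
  rfl

theorem primrec_dq : Primrec dq := Primrec.option_getD.comp Primrec.decode (Primrec.const _)

/-- The operator for the existential quantifier. -/
def EX (y : List Bool × (Code × Q)) : Prop :=
  ∃ b : ℕ, HU y.2.2.1 b ∧ ∃ z : ℕ,
    z ∈ y.2.1.eval (encode ((y.2.2.1, y.2.2.2.1, y.2.2.2.2.1 ++ [b], y.2.2.2.2.2) : Q)) ∧
      y.1[z]? = some false

theorem s1_EX : S1 EX := by
  have hev : Partrec fun x : Code × ℕ => x.1.eval x.2 :=
    Nat.Partrec.Code.eval_part.comp Computable.fst Computable.snd
  refine S1.ex (S1.and (s1_HU ?_ ?_) (S1.ex (S1.and ?_ (S1.of_prim ?_))))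
  · exact Primrec.fst.comp (Primrec.snd.comp (Primrec.snd.comp Primrec.fst))
  · exact Primrec.snd
  · have e0 : Primrec fun x : ((List Bool × (Code × Q)) × ℕ) × ℕ => x.1.1.2.2 :=
      Primrec.snd.comp (Primrec.snd.comp (Primrec.fst.comp Primrec.fst))
    refine (s1_mem hev).comp (f := fun x : ((List Bool × (Code × Q)) × ℕ) × ℕ =>
      ((x.1.1.2.1, encode ((x.1.1.2.2.1, x.1.1.2.2.2.1, x.1.1.2.2.2.2.1 ++ [x.1.2],
        x.1.1.2.2.2.2.2) : Q)), x.2)) ?_
    refine Primrec.pair (Primrec.pair ?_ (Primrec.encode.comp ?_)) Primrec.snd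
    · exact Primrec.fst.comp (Primrec.snd.comp (Primrec.fst.comp Primrec.fst))
    · refine (Primrec.fst.comp e0).pair ((Primrec.fst.comp (Primrec.snd.comp e0)).pair
        ((Primrec.list_append.comp ?_ ?_).pair ?_))
      · exact Primrec.fst.comp (Primrec.snd.comp (Primrec.snd.comp e0))
      · exact Primrec.list_cons.comp (Primrec.snd.comp Primrec.fst) (Primrec.const [])
      · exact Primrec.snd.comp (Primrec.snd.comp (Primrec.snd.comp e0))
  · exact Primrec.eq.comp (Primrec.list_getElem?.comp
      (Primrec.fst.comp (Primrec.fst.comp Primrec.fst)) Primrec.snd) (Primrec.const (some false))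

theorem exists_rho : ∃ ρ : Q → ℕ, Computable ρ ∧
    (∀ e x a n, x.unpair.1 = 0 → itJ (n + 1) (ρ (e, x, a, n + 1)) = false) ∧
    (∀ e x a n, x.unpair.1 = 1 → (itJ (n + 1) (ρ (e, x, a, n + 1)) = true ↔ HA e x a)) ∧
    (∀ e x a n, x.unpair.1 = 2 → (itJ (n + 1) (ρ (e, x, a, n + 1)) = true ↔
      (itJ n (ρ (e, x.unpair.2.unpair.1, a, n)) = true →
        itJ n (ρ (e, x.unpair.2.unpair.2, a, n)) = true))) ∧
    (∀ e x a n, x.unpair.1 = 3 → (itJ (n + 2) (ρ (e, x, a, n + 2)) = true ↔
      ∀ b, HU e b → itJ n (ρ (e, x.unpair.2, a ++ [b], n)) = true)) := by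
  -- the combinators
  obtain ⟨zf, -, hzf⟩ := uni_jump (α := Unit) (E := fun _ => False)
    (S1.of_prim (PP.const False))
  obtain ⟨at', hat, hat'⟩ := uni_jump (α := ℕ × ℕ × List ℕ)
    (E := fun y => HA y.2.1 y.2.2.1 y.2.2.2) (s1_HA (Primrec.fst.comp Primrec.snd)
      (Primrec.fst.comp (Primrec.snd.comp Primrec.snd))
      (Primrec.snd.comp (Primrec.snd.comp Primrec.snd)))
  obtain ⟨im, him, him'⟩ := uni_jump (α := ℕ × ℕ)
    (E := fun y => y.1[y.2.1]? = some false ∨ y.1[y.2.2]? = some true)
    ((S1.of_prim (Primrec.eq.comp (Primrec.list_getElem?.comp Primrec.fst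
      (Primrec.fst.comp Primrec.snd)) (Primrec.const (some false)))).or
    (S1.of_prim (Primrec.eq.comp (Primrec.list_getElem?.comp Primrec.fst
      (Primrec.snd.comp Primrec.snd)) (Primrec.const (some true)))))
  obtain ⟨ng, hng, hng'⟩ := uni_jump (α := ℕ) (E := fun y => y.1[y.2]? = some false)
    (S1.of_prim (Primrec.eq.comp (Primrec.list_getElem?.comp Primrec.fst Primrec.snd)
      (Primrec.const (some false))))
  obtain ⟨ex, hex, hex'⟩ := uni_jump (α := Code × Q) (E := EX) s1_EX
  -- the part without calls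
  let g : Code × Q → ℕ := fun y =>
    if y.2.2.1.unpair.1 = 0 then zf () else
    if y.2.2.1.unpair.1 = 1 then at' (y.2.1, y.2.2.1, y.2.2.2.1) else
    if y.2.2.2.2 ≤ 1 then 0 else
      ng (ex (y.1, (y.2.1, y.2.2.1.unpair.2, y.2.2.2.1, y.2.2.2.2 - 2)))
  have e1 : Primrec fun y : Code × Q => y.2.1 := Primrec.fst.comp Primrec.snd
  have e2 : Primrec fun y : Code × Q => y.2.2.1 := Primrec.fst.comp (Primrec.snd.comp Primrec.snd)
  have e3 : Primrec fun y : Code × Q => y.2.2.2.1 :=
    Primrec.fst.comp (Primrec.snd.comp (Primrec.snd.comp Primrec.snd))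
  have e4 : Primrec fun y : Code × Q => y.2.2.2.2 :=
    Primrec.snd.comp (Primrec.snd.comp (Primrec.snd.comp Primrec.snd))
  have e5 : Primrec fun y : Code × Q => y.2.2.1.unpair.1 :=
    Primrec.fst.comp (Primrec.unpair.comp e2)
  have e6 : Primrec fun y : Code × Q => y.2.2.1.unpair.2 :=
    Primrec.snd.comp (Primrec.unpair.comp e2)
  have hg : Computable g := by
    have h1 : Computable fun y : Code × Q => at' (y.2.1, y.2.2.1, y.2.2.2.1) :=
      hat.comp (e1.pair (e2.pair e3)).to_comp
    have h2 : Computable fun y : Code × Q =>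
        ng (ex (y.1, (y.2.1, y.2.2.1.unpair.2, y.2.2.2.1, y.2.2.2.2 - 2))) :=
      hng.comp (hex.comp (Primrec.fst.pair (e1.pair (e6.pair (e3.pair
        (Primrec.nat_sub.comp e4 (Primrec.const 2)))))).to_comp)
    have h3 : Computable fun y : Code × Q => if y.2.2.2.2 ≤ 1 then 0 else
        ng (ex (y.1, (y.2.1, y.2.2.1.unpair.2, y.2.2.2.1, y.2.2.2.2 - 2))) := by
      refine (Computable.cond (c := fun y : Code × Q => decide (y.2.2.2.2 ≤ 1))
        (Primrec.nat_le.comp e4 (Primrec.const 1)).decide.to_comp (Computable.const 0) h2).of_eq ?_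
      intro y
      by_cases h : y.2.2.2.2 ≤ 1 <;> simp [h]
    have h4 : Computable fun y : Code × Q => if y.2.2.1.unpair.1 = 1 then
        at' (y.2.1, y.2.2.1, y.2.2.2.1) else if y.2.2.2.2 ≤ 1 then 0 else
        ng (ex (y.1, (y.2.1, y.2.2.1.unpair.2, y.2.2.2.1, y.2.2.2.2 - 2))) := by
      refine (Computable.cond (c := fun y : Code × Q => decide (y.2.2.1.unpair.1 = 1))
        (Primrec.eq.comp e5 (Primrec.const 1)).decide.to_comp h1 h3).of_eq ?_
      intro y
      by_cases h : y.2.2.1.unpair.1 = 1 <;> simp [h]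
    refine (Computable.cond (c := fun y : Code × Q => decide (y.2.2.1.unpair.1 = 0))
      (Primrec.eq.comp e5 (Primrec.const 0)).decide.to_comp (Computable.const (zf ())) h4).of_eq ?_
    intro y
    by_cases h : y.2.2.1.unpair.1 = 0 <;> simp [g, h]
  -- the operator
  let F : Code → ℕ →. ℕ := fun c m =>
    bif decide ((dq m).2.2.2 = 0) then Part.some 0 else
    bif decide ((dq m).2.1.unpair.1 = 2) then
      (c.eval (encode (((dq m).1, (dq m).2.1.unpair.2.unpair.1, (dq m).2.2.1,
        (dq m).2.2.2 - 1) : Q))).bind fun z1 =>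
      (c.eval (encode (((dq m).1, (dq m).2.1.unpair.2.unpair.2, (dq m).2.2.1,
        (dq m).2.2.2 - 1) : Q))).map fun z2 => im (z1, z2)
    else Part.some (g (c, dq m))
  have d0 : Primrec fun x : Code × ℕ => dq x.2 := primrec_dq.comp Primrec.snd
  have d1 : Primrec fun x : Code × ℕ => (dq x.2).1 := Primrec.fst.comp d0
  have d2 : Primrec fun x : Code × ℕ => (dq x.2).2.1 := Primrec.fst.comp (Primrec.snd.comp d0)
  have d3 : Primrec fun x : Code × ℕ => (dq x.2).2.2.1 :=
    Primrec.fst.comp (Primrec.snd.comp (Primrec.snd.comp d0))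
  have d4 : Primrec fun x : Code × ℕ => (dq x.2).2.2.2 :=
    Primrec.snd.comp (Primrec.snd.comp (Primrec.snd.comp d0))
  have d5 : Primrec fun x : Code × ℕ => (dq x.2).2.1.unpair.2.unpair.1 :=
    Primrec.fst.comp (Primrec.unpair.comp (Primrec.snd.comp (Primrec.unpair.comp d2)))
  have d6 : Primrec fun x : Code × ℕ => (dq x.2).2.1.unpair.2.unpair.2 :=
    Primrec.snd.comp (Primrec.unpair.comp (Primrec.snd.comp (Primrec.unpair.comp d2)))
  have hF : Partrec₂ F := by
    refine Partrec.cond (Primrec.eq.comp d4 (Primrec.const 0)).decide.to_comp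
      (Computable.const 0).partrec ?_
    refine Partrec.cond (Primrec.eq.comp (Primrec.fst.comp (Primrec.unpair.comp d2))
      (Primrec.const 2)).decide.to_comp ?_ ?_
    · refine Partrec.bind ?_ ?_
      · exact Nat.Partrec.Code.eval_part.comp Primrec.fst.to_comp (Primrec.encode.comp
          (d1.pair (d5.pair (d3.pair (Primrec.nat_sub.comp d4 (Primrec.const 1)))))).to_comp
      · refine Partrec.map ?_ ?_
        · exact Nat.Partrec.Code.eval_part.comp (Primrec.fst.comp Primrec.fst).to_comp
            (Primrec.encode.comp ((d1.comp Primrec.fst).pair ((d6.comp Primrec.fst).pair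
              ((d3.comp Primrec.fst).pair (Primrec.nat_sub.comp (d4.comp Primrec.fst)
                (Primrec.const 1)))))).to_comp
        · exact him.comp ((Primrec.snd.comp Primrec.fst).pair Primrec.snd).to_comp
    · exact (hg.comp (Primrec.fst.pair d0).to_comp).partrec
  obtain ⟨c, hc⟩ := Nat.Partrec.Code.fixed_point₂ hF
  -- the equations
  have q0 : ∀ e x a, c.eval (encode ((e, x, a, 0) : Q)) = Part.some 0 := by
    intro e x a
    rw [hc]
    simp only [F, dq_encode]
    rfl
  have q2 : ∀ e x a n, x.unpair.1 = 2 → c.eval (encode ((e, x, a, n + 1) : Q)) =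
      (c.eval (encode ((e, x.unpair.2.unpair.1, a, n) : Q))).bind fun z1 =>
      (c.eval (encode ((e, x.unpair.2.unpair.2, a, n) : Q))).map fun z2 => im (z1, z2) := by
    intro e x a n hx
    conv_lhs => rw [hc]
    simp only [F, dq_encode, hx]
    simp
  have q1 : ∀ e x a n, x.unpair.1 ≠ 2 → c.eval (encode ((e, x, a, n + 1) : Q)) =
      Part.some (g (c, (e, x, a, n + 1))) := by
    intro e x a n hx
    conv_lhs => rw [hc]
    simp only [F, dq_encode, hx]
    simp
  have htot : ∀ n e x a, (c.eval (encode ((e, x, a, n) : Q))).Dom := by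
    intro n
    induction n with
    | zero => intro e x a; rw [q0]; trivial
    | succ n ih =>
      intro e x a
      by_cases hx : x.unpair.1 = 2
      · rw [q2 e x a n hx]
        simp only [Part.bind_dom]
        exact ⟨ih _ _ _, ih _ _ _⟩
      · rw [q1 e x a n hx]
        trivial
  have htot' : ∀ q : Q, (c.eval (encode q)).Dom := fun q => htot _ _ _ _
  let ρ : Q → ℕ := fun q => (c.eval (encode q)).get (htot' q)
  have hρ : ∀ q, c.eval (encode q) = Part.some (ρ q) := fun q => (Part.some_get (htot' q)).symm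
  refine ⟨ρ, ?_, ?_, ?_, ?_, ?_⟩
  · have h1 : Partrec fun q : Q => c.eval (encode q) :=
      Nat.Partrec.Code.eval_part.comp (Computable.const c) Primrec.encode.to_comp
    exact h1.of_eq fun q => by rw [hρ]; rfl
  · intro e x a n hx
    have h1 := q1 e x a n (by rw [hx]; decide)
    rw [hρ, Part.some_inj] at h1
    rw [h1]
    simp only [g, hx, if_true, itJ]
    by_contra h
    rw [Bool.not_eq_false] at h
    exact ((hzf _ ()).1 h).elim fun _ h => h
  · intro e x a n hx
    have h1 := q1 e x a n (by rw [hx]; decide)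
    rw [hρ, Part.some_inj] at h1
    rw [h1]
    simp only [g, itJ]
    rw [if_neg (by rw [hx]; decide), if_pos hx, hat']
    exact ⟨fun ⟨_, h⟩ => h, fun h => ⟨0, h⟩⟩
  · intro e x a n hx
    have h1 := q2 e x a n hx
    rw [hρ, hρ, hρ, Part.bind_some, Part.map_some, Part.some_inj] at h1
    rw [h1]
    simp only [itJ]
    rw [him']
    rw [exists_or, ex_query, ex_query]
    generalize itJ n (ρ (e, x.unpair.2.unpair.1, a, n)) = u
    generalize itJ n (ρ (e, x.unpair.2.unpair.2, a, n)) = v
    revert u v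
    decide
  · intro e x a n hx
    have h1 := q1 e x a (n + 1) (by rw [hx]; decide)
    rw [hρ, Part.some_inj] at h1
    rw [h1]
    simp only [g]
    rw [if_neg (by rw [hx]; decide), if_neg (by rw [hx]; decide), if_neg (by omega)]
    simp only [itJ]
    rw [hng', ex_query]
    have h2 : n + 1 + 1 - 2 = n := by omega
    rw [h2]
    have h3 := hex' (itJ n) (c, (e, x.unpair.2, a, n))
    have h4 : (∃ s, EX (pre (itJ n) s, (c, (e, x.unpair.2, a, n)))) ↔
        ∃ b, HU e b ∧ itJ n (ρ (e, x.unpair.2, a ++ [b], n)) = false := by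
      simp only [EX, hρ, Part.mem_some_iff, exists_eq_left]
      constructor
      · rintro ⟨s, b, h5, h6⟩
        exact ⟨b, h5, ex_query.1 ⟨s, h6⟩⟩
      · rintro ⟨b, h5, h6⟩
        obtain ⟨s, h7⟩ := ex_query.2 h6
        exact ⟨s, b, h5, h7⟩
    rw [h4] at h3
    rw [← Bool.not_eq_true, h3]
    push Not
    refine forall_congr' fun b => imp_congr_right fun _ => ?_
    simp

end Pool.Agent.K9h72.DT
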